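import Mathlib

set_option autoImplicit false

namespace Pool.Agent.Results.MP_2db6a9_co.Rows

open Finset

/-- Submodularity on the algebra of all subsets. -/
def Submod {J : Type} (ψ : Set J → ℝ) : Prop :=
  ∀ X Y : Set J, ψ (X ∩ Y) + ψ (X ∪ Y) ≤ ψ X + ψ Y

open Classical in
noncomputable def φ (X : Set (ℕ × ℕ)) : ℝ :=
  if ∃ (n : ℕ) (s : Finset ℕ), s.card = n + 2 ∧ ∀ i ∈ s, (n, i) ∈ X then 1 else 0

def row (n : ℕ) (s : Finset ℕ) : Set (ℕ × ℕ) := {p | p.1 = n ∧ p.2 ∈ s}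

theorem φ_row (n : ℕ) (s : Finset ℕ) : φ (row n s) = if n + 2 ≤ s.card then 1 else 0 := by
  unfold φ
  congr 1
  apply propext
  constructor
  · rintro ⟨m, t, ht, h⟩
    obtain ⟨i, hi⟩ : t.Nonempty := card_pos.mp (by omega)
    have hm : m = n := (h i hi).1
    have := card_le_card (show t ⊆ s from fun i hi => (h i hi).2)
    omega
  · intro h
    obtain ⟨t, h1, h2⟩ := exists_subset_card_eq h
    exact ⟨n, t, h2, fun i hi => ⟨rfl, h1 hi⟩⟩

theorem marg {ψ : Set (ℕ × ℕ) → ℝ} (h : Submod ψ) (n : ℕ) (s t : Finset ℕ) (a : ℕ) (hst : s ⊆ t)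
    (ha : a ∉ t) : ψ (row n (insert a t)) - ψ (row n t) ≤ ψ (row n (insert a s)) - ψ (row n s) := by
  have := h (row n (insert a s)) (row n t)
  have e1 : row n (insert a s) ∩ row n t = row n s := by
    ext ⟨x, y⟩
    simp only [row, Set.mem_inter_iff, Set.mem_ofPred_eq, mem_insert]
    constructor
    · rintro ⟨⟨h1, h2 | h2⟩, -, h3⟩
      · exact absurd (h2 ▸ h3) ha
      · exact ⟨h1, h2⟩
    · rintro ⟨h1, h2⟩
      exact ⟨⟨h1, Or.inr h2⟩, h1, hst h2⟩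
  have e2 : row n (insert a s) ∪ row n t = row n (insert a t) := by
    ext ⟨x, y⟩
    simp only [row, Set.mem_union, Set.mem_ofPred_eq, mem_insert]
    constructor
    · rintro (⟨h1, h2 | h2⟩ | ⟨h1, h2⟩)
      · exact ⟨h1, Or.inl h2⟩
      · exact ⟨h1, Or.inr (hst h2)⟩
      · exact ⟨h1, Or.inr h2⟩
    · rintro ⟨h1, h2 | h2⟩
      · exact Or.inl ⟨h1, Or.inl h2⟩
      · exact Or.inr ⟨h1, h2⟩
  rw [e1, e2] at this
  linarith

theorem good {ψ : Set (ℕ × ℕ) → ℝ} (h : Submod ψ) (b : ℝ) (hb : ∀ X, |ψ X| ≤ b) (n : ℕ)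
    (Z : Finset ℕ) : ∃ a ∉ Z, -(1 / 2) ≤ ψ (row n (insert a Z)) - ψ (row n Z) := by
  by_contra hc
  push Not at hc
  have key : ∀ m : ℕ, ∃ T, Z ⊆ T ∧ ψ (row n T) ≤ ψ (row n Z) - m / 2 := by
    intro m
    induction m with
    | zero => exact ⟨Z, Subset.refl _, by simp⟩
    | succ m ih =>
      obtain ⟨T, h1, h2⟩ := ih
      obtain ⟨a, ha⟩ := Infinite.exists_notMem_finset T
      refine ⟨insert a T, h1.trans (subset_insert _ _), ?_⟩
      have e1 := marg h n Z T a h1 ha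
      have e2 := hc a (fun h => ha (h1 h))
      push_cast
      linarith
  obtain ⟨m, hm⟩ := exists_nat_gt (4 * b)
  obtain ⟨T, -, h2⟩ := key m
  have e1 := abs_le.mp (hb (row n T))
  have e2 := abs_le.mp (hb (row n Z))
  linarith

theorem result : ∃ φ : Set (ℕ × ℕ) → ℝ,
    (∃ f g : Set (ℕ × ℕ) → ℝ, Monotone f ∧ Monotone g ∧ φ = f - g) ∧
    ∀ ψ₁ ψ₂ : Set (ℕ × ℕ) → ℝ, (∃ b, ∀ X, |ψ₁ X| ≤ b) → (∃ b, ∀ X, |ψ₂ X| ≤ b) →
      Submod ψ₁ → Submod ψ₂ → φ ≠ ψ₁ - ψ₂ := by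
  refine ⟨φ, ⟨φ, 0, ?_, monotone_const, by simp⟩, ?_⟩
  · intro X Y hXY
    unfold φ
    split_ifs with h1 h2
    · exact le_rfl
    · obtain ⟨n, s, hs, h⟩ := h1
      exact absurd ⟨n, s, hs, fun i hi => hXY (h i hi)⟩ h2
    · norm_num
    · exact le_rfl
  rintro ψ₁ ψ - ⟨b, hb⟩ h1 h2 heq
  have hψ : ∀ X, ψ₁ X = φ X + ψ X := fun X => by rw [heq]; simp
  obtain ⟨n, hn⟩ := exists_nat_gt (4 * b)
  have key : ∀ m ≤ n, ∃ P : Finset ℕ, P.card = m ∧ ψ (row n ∅) + m / 2 ≤ ψ (row n P) := by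
    intro m
    induction m with
    | zero => intro _; exact ⟨∅, rfl, by simp⟩
    | succ m ih =>
      intro hm
      obtain ⟨P, p1, p2⟩ := ih (by omega)
      obtain ⟨X, x1, x2⟩ := Infinite.exists_superset_card_eq P n (by omega)
      obtain ⟨c, hc⟩ := Infinite.exists_notMem_finset X
      obtain ⟨a, ha, hg⟩ := good h2 b hb n (insert c X)
      have haX : a ∉ X := fun h => ha (mem_insert_of_mem h)
      have e1 := marg h1 n X (insert c X) a (subset_insert _ _) ha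
      have e2 := marg h2 n P X a x1 haX
      simp only [hψ, φ_row, card_insert_of_notMem ha, card_insert_of_notMem hc,
        card_insert_of_notMem haX, x2] at e1
      rw [if_pos (by omega), if_neg (by omega), if_neg (by omega)] at e1
      refine ⟨insert a P, by rw [card_insert_of_notMem (fun h => haX (x1 h)), p1], ?_⟩
      push_cast
      linarith
  obtain ⟨P, -, h3⟩ := key n le_rfl
  have e1 := abs_le.mp (hb (row n P))
  have e2 := abs_le.mp (hb (row n ∅))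
  linarith

end Pool.Agent.Results.MP_2db6a9_co.Rows
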